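import Pool.Agent.H671R2.Search
import Pool.Agent.H634R2.Clique

/-!
# Colouring odd-hole-free graphs: the combinatorial core

From a list `E` of pairs (edges of a graph `F₀`) we form the complement of the line graph of the
graph obtained from `F₀` by replacing every edge by a path with three edges.  Its vertices are the
labels `(i, r, w)`: the `r`-th edge (`r = 0, 1, 2`) of the path replacing the `i`-th edge of `F₀`;
`w` is the end in `F₀` of this edge (for `r ≠ 1`).
-/

namespace Pool.Agent.W981.OHF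

open Pool.Agent.NPC Pool.Agent.NPC.R671

/-- Labels of the edges of the subdivided graph. -/
abbrev Lab : Type := ℕ × ℕ × ℕ

/-- The two different edges with labels `x` and `y` have a common end. -/
def meets (x y : Lab) : Bool :=
  (decide (x.1 = y.1) && (decide (x.2.1 = 1) || decide (y.2.1 = 1))) ||
    (decide (x.2.1 ≠ 1) && decide (y.2.1 ≠ 1) && decide (x.2.2 = y.2.2))

theorem meets_iff {x y : Lab} : meets x y = true ↔
    (x.1 = y.1 ∧ (x.2.1 = 1 ∨ y.2.1 = 1)) ∨ (x.2.1 ≠ 1 ∧ y.2.1 ≠ 1 ∧ x.2.2 = y.2.2) := by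
  simp [meets, and_assoc]

/-- Adjacency in the complement of the line graph. -/
def ad (x y : Lab) : Bool := decide (x ≠ y) && !(meets x y)

theorem ad_iff {x y : Lab} : ad x y = true ↔ x ≠ y ∧ ¬ meets x y = true := by
  simp [ad]

theorem meets_symm (x y : Lab) : meets x y = meets y x := by
  rw [Bool.eq_iff_iff, meets_iff, meets_iff]
  constructor
  · rintro (⟨h, h1 | h1⟩ | ⟨h1, h2, h3⟩)
    · exact Or.inl ⟨h.symm, Or.inr h1⟩
    · exact Or.inl ⟨h.symm, Or.inl h1⟩
    · exact Or.inr ⟨h2, h1, h3.symm⟩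
  · rintro (⟨h, h1 | h1⟩ | ⟨h1, h2, h3⟩)
    · exact Or.inl ⟨h.symm, Or.inr h1⟩
    · exact Or.inl ⟨h.symm, Or.inl h1⟩
    · exact Or.inr ⟨h2, h1, h3.symm⟩

theorem ad_symm (x y : Lab) : ad x y = ad y x := by
  rw [Bool.eq_iff_iff, ad_iff, ad_iff, meets_symm]
  exact ⟨fun h => ⟨h.1.symm, h.2⟩, fun h => ⟨h.1.symm, h.2⟩⟩

theorem ad_irrefl (x : Lab) : ad x x = false := by simp [ad]

/-- The labels of the edges of the subdivided graph. -/
def labs (E : List (ℕ × ℕ)) : List Lab :=
  E.zipIdx.flatMap (fun p => [(p.2, 0, p.1.1), (p.2, 1, 0), (p.2, 2, p.1.2)])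

theorem mem_labs {E : List (ℕ × ℕ)} {x : Lab} : x ∈ labs E ↔
    ∃ i u v, E[i]? = some (u, v) ∧ (x = (i, 0, u) ∨ x = (i, 1, 0) ∨ x = (i, 2, v)) := by
  unfold labs
  rw [List.mem_flatMap]
  constructor
  · rintro ⟨⟨⟨u, v⟩, i⟩, h, hx⟩
    rw [List.mem_zipIdx_iff_getElem?] at h
    refine ⟨i, u, v, h, ?_⟩
    simpa using hx
  · rintro ⟨i, u, v, h, hx⟩
    refine ⟨((u, v), i), ?_, ?_⟩
    · rw [List.mem_zipIdx_iff_getElem?]
      exact h
    · simpa using hx

theorem nodup_labs (E : List (ℕ × ℕ)) : (labs E).Nodup := by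
  unfold labs
  rw [List.nodup_flatMap]
  constructor
  · rintro ⟨⟨u, v⟩, i⟩ _
    simp
  · have h : (E.zipIdx.map Prod.snd).Nodup := by
      rw [List.zipIdx_map_snd]
      exact List.nodup_range'
    have h2 : List.Pairwise (fun a b : (ℕ × ℕ) × ℕ => a.2 ≠ b.2) E.zipIdx := by
      rw [List.Nodup, List.pairwise_map] at h
      exact h
    refine h2.imp ?_
    rintro ⟨⟨u, v⟩, i⟩ ⟨⟨u', v'⟩, j⟩ hij
    simp only [Function.onFun, ne_eq] at hij ⊢
    intro x hx hy
    simp only [List.mem_cons, List.not_mem_nil, or_false] at hx hy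
    rcases hx with rfl | rfl | rfl <;> rcases hy with hy | hy | hy <;>
      simp only [Prod.mk.injEq] at hy <;> exact hij hy.1

/-- The complement of the line graph of the subdivided graph. -/
def gr (E : List (ℕ × ℕ)) : SimpleGraph (Fin (labs E).length) :=
  listGraph (labs E) ad ad_symm ad_irrefl

theorem gr_adj {E : List (ℕ × ℕ)} {i j : Fin (labs E).length} :
    (gr E).Adj i j ↔ ad (labs E)[i] (labs E)[j] = true := Iff.rfl

/-- A graph is odd-hole-free if it has no induced cycle of odd length at least five. -/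
def OddHoleFree {V : Type*} (G : SimpleGraph V) : Prop :=
  ∀ k : ℕ, Odd k → 5 ≤ k → IsEmpty (SimpleGraph.cycleGraph k ↪g G)

/-! ### The graphs are odd-hole-free -/

/-- The properties of the labels used below. -/
structure Good (S : Lab → Prop) : Prop where
  uniq : ∀ x y, S x → S y → x.1 = y.1 → x.2.1 = y.2.1 → x = y
  lt : ∀ x, S x → x.2.1 < 3
  ne : ∀ x y, S x → S y → x.1 = y.1 → x.2.1 = 0 → y.2.1 = 2 → x.2.2 ≠ y.2.2

theorem good_labs {E : List (ℕ × ℕ)} (hE : ∀ e ∈ E, e.1 ≠ e.2) : Good (fun x => x ∈ labs E) where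
  uniq x y hx hy h1 h2 := by
    obtain ⟨i, u, v, h, hx⟩ := mem_labs.1 hx
    obtain ⟨j, u', v', h', hy⟩ := mem_labs.1 hy
    have hij : i = j := by
      rcases hx with rfl | rfl | rfl <;> rcases hy with rfl | rfl | rfl <;> exact h1
    subst hij
    rw [h] at h'
    simp only [Option.some.injEq, Prod.mk.injEq] at h'
    obtain ⟨rfl, rfl⟩ := h'
    rcases hx with rfl | rfl | rfl <;> rcases hy with rfl | rfl | rfl <;> simp at h2 ⊢
  lt x hx := by
    obtain ⟨i, u, v, h, hx⟩ := mem_labs.1 hx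
    rcases hx with rfl | rfl | rfl <;> simp
  ne x y hx hy h1 h2 h3 := by
    obtain ⟨i, u, v, h, hx⟩ := mem_labs.1 hx
    obtain ⟨j, u', v', h', hy⟩ := mem_labs.1 hy
    have hij : i = j := by
      rcases hx with rfl | rfl | rfl <;> rcases hy with rfl | rfl | rfl <;> exact h1
    subst hij
    rw [h] at h'
    simp only [Option.some.injEq, Prod.mk.injEq] at h'
    obtain ⟨rfl, rfl⟩ := h'
    have := hE _ (List.mem_of_getElem? h)
    rcases hx with rfl | rfl | rfl <;> rcases hy with rfl | rfl | rfl <;> simp at h2 h3 ⊢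
    exact this

variable {S : Lab → Prop}

theorem Good.b_meets (hS : Good S) {x y : Lab} (hx : S x) (hy : S y) (hxy : x ≠ y)
    (hb : x.2.1 = 1) (h : meets x y = true) : y.1 = x.1 ∧ (y.2.1 = 0 ∨ y.2.1 = 2) := by
  rw [meets_iff] at h
  rcases h with ⟨h1, _⟩ | ⟨h1, _, _⟩
  · refine ⟨h1.symm, ?_⟩
    have h2 := hS.lt y hy
    have h3 : y.2.1 ≠ 1 := fun h => hxy (hS.uniq x y hx hy h1 (by rw [hb, h]))
    omega
  · exact absurd hb h1

theorem Good.b_meets_two (hS : Good S) {x y z : Lab} (hx : S x) (hy : S y) (hz : S z)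
    (hxy : x ≠ y) (hxz : x ≠ z) (hyz : y ≠ z) (hb : x.2.1 = 1) (h1 : meets x y = true)
    (h2 : meets x z = true) : ¬ meets y z = true := by
  obtain ⟨e1, k1⟩ := hS.b_meets hx hy hxy hb h1
  obtain ⟨e2, k2⟩ := hS.b_meets hx hz hxz hb h2
  intro h
  rw [meets_iff] at h
  rcases h with ⟨_, h | h⟩ | ⟨_, _, h⟩
  · omega
  · omega
  · rcases k1 with k1 | k1 <;> rcases k2 with k2 | k2
    · exact hyz (hS.uniq y z hy hz (by rw [e1, e2]) (by rw [k1, k2]))
    · exact hS.ne y z hy hz (by rw [e1, e2]) k1 k2 h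
    · exact hS.ne z y hz hy (by rw [e1, e2]) k2 k1 h.symm
    · exact hyz (hS.uniq y z hy hz (by rw [e1, e2]) (by rw [k1, k2]))

theorem Good.triple (hS : Good S) {x y z : Lab} (hx : S x) (hy : S y) (hz : S z)
    (hxy : x ≠ y) (hxz : x ≠ z) (hyz : y ≠ z) (h1 : meets x y = true) (h2 : meets x z = true)
    (h3 : meets y z = true) :
    x.2.1 ≠ 1 ∧ y.2.1 ≠ 1 ∧ z.2.1 ≠ 1 ∧ x.2.2 = y.2.2 ∧ x.2.2 = z.2.2 := by
  have b1 : x.2.1 ≠ 1 := fun hb => hS.b_meets_two hx hy hz hxy hxz hyz hb h1 h2 h3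
  have b2 : y.2.1 ≠ 1 := fun hb => hS.b_meets_two hy hx hz hxy.symm hyz hxz hb
    (by rw [meets_symm]; exact h1) h3 h2
  have b3 : z.2.1 ≠ 1 := fun hb => hS.b_meets_two hz hx hy hxz.symm hyz.symm hxy hb
    (by rw [meets_symm]; exact h2) (by rw [meets_symm]; exact h3) h1
  rw [meets_iff] at h1 h2
  refine ⟨b1, b2, b3, ?_, ?_⟩
  · rcases h1 with ⟨_, h | h⟩ | h
    · exact absurd h b1
    · exact absurd h b2
    · exact h.2.2
  · rcases h2 with ⟨_, h | h⟩ | h
    · exact absurd h b1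
    · exact absurd h b3
    · exact h.2.2

/-- No diamond in the line graph. -/
theorem Good.diamond (hS : Good S) {x y z w : Lab} (hx : S x) (hy : S y) (hz : S z) (hw : S w)
    (hxy : x ≠ y) (hxz : x ≠ z) (hyz : y ≠ z) (hxw : x ≠ w) (hyw : y ≠ w)
    (h1 : meets x y = true) (h2 : meets x z = true) (h3 : meets y z = true)
    (h4 : meets x w = true) (h5 : meets y w = true) : meets z w = true := by
  obtain ⟨_, _, b, _, e⟩ := hS.triple hx hy hz hxy hxz hyz h1 h2 h3
  obtain ⟨_, _, b', _, e'⟩ := hS.triple hx hy hw hxy hxw hyw h1 h4 h5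
  rw [meets_iff]
  exact Or.inr ⟨b, b', by rw [← e, e']⟩

/-- The middle edges on a closed walk of the line graph. -/
theorem Good.step (hS : Good S) {x y z : Lab} (hx : S x) (hy : S y) (hz : S z)
    (hxy : x ≠ y) (hxz : x ≠ z) (hyz : y ≠ z) (h1 : meets x y = true) (h2 : meets y z = true)
    (h3 : ¬ meets x z = true) :
    (y.2.1 = 1 → x.2.1 ≠ 1 ∧ z.2.1 ≠ 1) ∧ (y.2.1 ≠ 1 → (x.2.1 = 1 ∨ z.2.1 = 1)) ∧
      (y.2.1 ≠ 1 → ¬ (x.2.1 = 1 ∧ z.2.1 = 1)) := by
  refine ⟨fun hb => ?_, fun hb => ?_, fun hb => ?_⟩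
  · have e1 := hS.b_meets hy hx hxy.symm hb (by rw [meets_symm]; exact h1)
    have e2 := hS.b_meets hy hz hyz hb h2
    omega
  · by_contra hcon
    push Not at hcon
    rw [meets_iff] at h1 h2 h3
    apply h3
    rcases h1 with ⟨_, h | h⟩ | h
    · exact absurd h hcon.1
    · exact absurd h hb
    rcases h2 with ⟨_, h' | h'⟩ | h'
    · exact absurd h' hb
    · exact absurd h' hcon.2
    exact Or.inr ⟨hcon.1, hcon.2, h.2.2.trans h'.2.2⟩
  · rintro ⟨c1, c2⟩
    have e1 := hS.b_meets hx hy hxy c1 h1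
    have e2 := hS.b_meets hz hy hyz.symm c2 (by rw [meets_symm]; exact h2)
    exact hxz (hS.uniq x z hx hz (by rw [← e1.1, e2.1]) (by rw [c1, c2]))

/-- No induced cycle with five edges in the line graph. -/
theorem Good.pentagon (hS : Good S) {a b c d e : Lab} (ha : S a) (hb : S b) (hc : S c) (hd : S d)
    (he : S e) (hab : a ≠ b) (hbc : b ≠ c) (hcd : c ≠ d) (hde : d ≠ e) (hea : e ≠ a)
    (hac : a ≠ c) (hbd : b ≠ d) (hce : c ≠ e) (hda : d ≠ a) (heb : e ≠ b)
    (h1 : meets a b = true) (h2 : meets b c = true) (h3 : meets c d = true)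
    (h4 : meets d e = true) (h5 : meets e a = true)
    (g1 : ¬ meets a c = true) (g2 : ¬ meets b d = true) (g3 : ¬ meets c e = true)
    (g4 : ¬ meets d a = true) (g5 : ¬ meets e b = true) : False := by
  have s1 := hS.step ha hb hc hab hac hbc h1 h2 g1
  have s2 := hS.step hb hc hd hbc hbd hcd h2 h3 g2
  have s3 := hS.step hc hd he hcd hce hde h3 h4 g3
  have s4 := hS.step hd he ha hde hda hea h4 h5 g4
  have s5 := hS.step he ha hb hea heb hab h5 h1 g5
  revert s1 s2 s3 s4 s5
  by_cases c1 : a.2.1 = 1 <;> by_cases c2 : b.2.1 = 1 <;> by_cases c3 : c.2.1 = 1 <;>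
    by_cases c4 : d.2.1 = 1 <;> by_cases c5 : e.2.1 = 1 <;> simp [c1, c2, c3, c4, c5]

theorem cyc_adj {k a b : ℕ} (ha : a < k) (hb : b < k) (hab : a < b) :
    (SimpleGraph.cycleGraph k).Adj ⟨a, ha⟩ ⟨b, hb⟩ ↔ b = a + 1 ∨ b = a + (k - 1) := by
  rw [SimpleGraph.cycleGraph_adj', Fin.val_sub, Fin.val_sub]
  simp only
  have h1 : (k - b + a) % k = k - b + a := Nat.mod_eq_of_lt (by omega)
  have h2 : (k - a + b) % k = b - a := by
    have : k - a + b = k + (b - a) := by omega
    rw [this, Nat.add_mod_left, Nat.mod_eq_of_lt (by omega)]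
  rw [h1, h2]
  omega

/-- The graphs are odd-hole-free. -/
theorem oddHoleFree_gr {E : List (ℕ × ℕ)} (hE : ∀ e ∈ E, e.1 ≠ e.2) : OddHoleFree (gr E) := by
  intro k hk hk5
  refine ⟨fun f => ?_⟩
  have hS := good_labs hE
  let g : Fin k → Lab := fun t => (labs E)[f t]
  have gS : ∀ t, g t ∈ labs E := fun t => List.getElem_mem _
  have ginj : Function.Injective g := by
    intro t t' h
    have h2 : ((f t : Fin _) : ℕ) = f t' := (List.Nodup.getElem_inj_iff (nodup_labs E)).1 h
    exact f.injective (Fin.ext h2)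
  have hadj : ∀ t t' : Fin k, t ≠ t' →
      (¬ (SimpleGraph.cycleGraph k).Adj t t' ↔ meets (g t) (g t') = true) := by
    intro t t' hne
    have h1 : (SimpleGraph.cycleGraph k).Adj t t' ↔ (gr E).Adj (f t) (f t') :=
      f.map_adj_iff.symm
    rw [h1, gr_adj, ad_iff]
    have h3 : g t ≠ g t' := fun h => hne (ginj h)
    constructor
    · intro h
      by_contra hc
      exact h ⟨h3, hc⟩
    · intro h h'
      exact h'.2 h
  have key : ∀ (a b : ℕ) (ha : a < k) (hb : b < k), a < b →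
      (¬ (b = a + 1 ∨ b = a + (k - 1)) ↔ meets (g ⟨a, ha⟩) (g ⟨b, hb⟩) = true) := by
    intro a b ha hb hab
    rw [← cyc_adj ha hb hab]
    exact hadj _ _ (by simp only [ne_eq, Fin.mk.injEq]; omega)
  have kne : ∀ (a b : ℕ) (ha : a < k) (hb : b < k), a ≠ b → g ⟨a, ha⟩ ≠ g ⟨b, hb⟩ := by
    intro a b ha hb hab h
    have := ginj h
    simp only [Fin.mk.injEq] at this
    exact hab this
  rcases (show k = 5 ∨ 7 ≤ k by obtain ⟨m, rfl⟩ := hk; omega) with rfl | h7
  · refine hS.pentagon (gS ⟨0, by omega⟩) (gS ⟨2, by omega⟩) (gS ⟨4, by omega⟩)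
      (gS ⟨1, by omega⟩) (gS ⟨3, by omega⟩) ?_ ?_ ?_ ?_ ?_ ?_ ?_ ?_ ?_ ?_ ?_ ?_ ?_ ?_ ?_ ?_ ?_ ?_ ?_ ?_
    · exact kne _ _ _ _ (by omega)
    · exact kne _ _ _ _ (by omega)
    · exact kne _ _ _ _ (by omega)
    · exact kne _ _ _ _ (by omega)
    · exact kne _ _ _ _ (by omega)
    · exact kne _ _ _ _ (by omega)
    · exact kne _ _ _ _ (by omega)
    · exact kne _ _ _ _ (by omega)
    · exact kne _ _ _ _ (by omega)
    · exact kne _ _ _ _ (by omega)
    · exact (key 0 2 _ _ (by omega)).1 (by omega)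
    · exact (key 2 4 _ _ (by omega)).1 (by omega)
    · rw [meets_symm]; exact (key 1 4 _ _ (by omega)).1 (by omega)
    · exact (key 1 3 _ _ (by omega)).1 (by omega)
    · rw [meets_symm]; exact (key 0 3 _ _ (by omega)).1 (by omega)
    · rw [← key 0 4 _ _ (by omega)]; omega
    · rw [meets_symm, ← key 1 2 _ _ (by omega)]; omega
    · rw [meets_symm, ← key 3 4 _ _ (by omega)]; omega
    · rw [meets_symm, ← key 0 1 _ _ (by omega)]; omega
    · rw [meets_symm, ← key 2 3 _ _ (by omega)]; omega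
  · have h45 : ¬ meets (g ⟨4, by omega⟩) (g ⟨5, by omega⟩) = true := by
      rw [← key 4 5 _ _ (by omega)]; omega
    refine h45 (hS.diamond (gS ⟨0, by omega⟩) (gS ⟨2, by omega⟩) (gS ⟨4, by omega⟩)
      (gS ⟨5, by omega⟩) ?_ ?_ ?_ ?_ ?_ ?_ ?_ ?_ ?_ ?_)
    · exact kne _ _ _ _ (by omega)
    · exact kne _ _ _ _ (by omega)
    · exact kne _ _ _ _ (by omega)
    · exact kne _ _ _ _ (by omega)
    · exact kne _ _ _ _ (by omega)
    · exact (key 0 2 _ _ (by omega)).1 (by omega)
    · exact (key 0 4 _ _ (by omega)).1 (by omega)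
    · exact (key 2 4 _ _ (by omega)).1 (by omega)
    · exact (key 0 5 _ _ (by omega)).1 (by omega)
    · exact (key 2 5 _ _ (by omega)).1 (by omega)

/-! ### Colourings and vertex covers -/

/-- Colourings of the graph, in terms of the labels. -/
theorem colorable_gr {E : List (ℕ × ℕ)} {K : ℕ} : (gr E).Colorable K ↔
    ∃ c : Lab → ℕ, (∀ x ∈ labs E, c x < K) ∧
      ∀ x ∈ labs E, ∀ y ∈ labs E, ad x y = true → c x ≠ c y := by
  classical
  constructor
  · rintro ⟨C⟩
    have hpos : ∀ x : Lab, x ∈ labs E → ∃ i : Fin (labs E).length, (labs E)[i] = x := by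
      intro x hx
      obtain ⟨i, hi, h⟩ := List.getElem_of_mem hx
      exact ⟨⟨i, hi⟩, h⟩
    refine ⟨fun x => if h : x ∈ labs E then (C (hpos x h).choose : ℕ) else 0, ?_, ?_⟩
    · intro x hx
      simp only [dif_pos hx]
      exact Fin.isLt _
    · intro x hx y hy hxy
      simp only [dif_pos hx, dif_pos hy]
      have h1 := (hpos x hx).choose_spec
      have h2 := (hpos y hy).choose_spec
      have h3 : (gr E).Adj (hpos x hx).choose (hpos y hy).choose := by
        rw [gr_adj, h1, h2]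
        exact hxy
      intro h
      exact C.valid h3 (Fin.ext h)
  · rintro ⟨c, h1, h2⟩
    refine ⟨SimpleGraph.Coloring.mk (fun i => ⟨c (labs E)[i], h1 _ (List.getElem_mem _)⟩) ?_⟩
    intro i j hij h
    rw [Fin.mk.injEq] at h
    exact h2 _ (List.getElem_mem _) _ (List.getElem_mem _) hij h

/-- `C` is a vertex cover. -/
def Covers (E : List (ℕ × ℕ)) (C : Finset ℕ) : Prop := ∀ e ∈ E, e.1 ∈ C ∨ e.2 ∈ C

theorem colorable_of_cover {E : List (ℕ × ℕ)} {C : Finset ℕ} {t : ℕ} (hC : Covers E C)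
    (ht : C.card ≤ t) : (gr E).Colorable (t + E.length) := by
  classical
  rw [colorable_gr]
  let ρ : ℕ → ℕ := fun w => (C.filter (· < w)).card
  have hρ1 : ∀ w ∈ C, ρ w < t := by
    intro w hw
    refine lt_of_lt_of_le (Finset.card_lt_card ?_) ht
    rw [Finset.ssubset_iff_of_subset (Finset.filter_subset _ _)]
    exact ⟨w, hw, by simp⟩
  have hρ2 : ∀ w ∈ C, ∀ w' ∈ C, ρ w = ρ w' → w = w' := by
    have key : ∀ w ∈ C, ∀ w' ∈ C, w < w' → ρ w < ρ w' := by
      intro w hw w' hw' hlt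
      refine Finset.card_lt_card ?_
      rw [Finset.ssubset_iff_of_subset]
      · exact ⟨w, by simp [hw, hlt], by simp⟩
      · intro a ha
        rw [Finset.mem_filter] at ha ⊢
        exact ⟨ha.1, ha.2.trans hlt⟩
    intro w hw w' hw' h
    rcases lt_trichotomy w w' with h1 | h1 | h1
    · have := key w hw w' hw' h1; omega
    · exact h1
    · have := key w' hw' w hw h1; omega
  -- the end of the path number `i` which is covered
  let s : ℕ → ℕ := fun i => if (E[i]?.getD (0, 0)).1 ∈ C then 0 else 2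
  refine ⟨fun x => if x.2.1 = s x.1 then ρ x.2.2 else t + x.1, ?_, ?_⟩
  · intro x hx
    obtain ⟨i, u, v, h, hx⟩ := mem_labs.1 hx
    have hi : i < E.length := by
      by_contra hi
      rw [List.getElem?_eq_none (by omega)] at h
      simp at h
    have hcov := hC _ (List.mem_of_getElem? h)
    simp only
    split_ifs with hs
    · simp only [s] at hs
      rcases hx with rfl | rfl | rfl
      · simp only [h, Option.getD_some] at hs
        split_ifs at hs with hu
        exact lt_of_lt_of_le (hρ1 _ hu) (by omega)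
      · simp only [h, Option.getD_some] at hs
        split_ifs at hs
        omega
      · simp only [h, Option.getD_some] at hs
        split_ifs at hs with hu
        exact lt_of_lt_of_le (hρ1 _ (hcov.resolve_left hu)) (by omega)
    · rcases hx with rfl | rfl | rfl <;> simp only <;> omega
  · intro x hx y hy hxy
    have memC : ∀ z ∈ labs E, z.2.1 = s z.1 → z.2.2 ∈ C ∧ z.2.1 ≠ 1 := by
      intro z hz hs
      obtain ⟨i, u, v, h, hz⟩ := mem_labs.1 hz
      have hcov := hC _ (List.mem_of_getElem? h)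
      simp only [s] at hs
      rcases hz with rfl | rfl | rfl
      · simp only [h, Option.getD_some] at hs
        split_ifs at hs with hu
        exact ⟨hu, by simp⟩
      · simp only [h, Option.getD_some] at hs
        split_ifs at hs
        omega
      · simp only [h, Option.getD_some] at hs
        split_ifs at hs with hu
        exact ⟨hcov.resolve_left hu, by simp⟩
    rw [ad_iff, meets_iff] at hxy
    obtain ⟨hne, hm⟩ := hxy
    simp only
    split_ifs with h1 h2 h2
    · obtain ⟨c1, d1⟩ := memC x hx h1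
      obtain ⟨c2, d2⟩ := memC y hy h2
      intro h
      exact hm (Or.inr ⟨d1, d2, hρ2 _ c1 _ c2 h⟩)
    · have := hρ1 _ (memC x hx h1).1
      omega
    · have := hρ1 _ (memC y hy h2).1
      omega
    · intro h
      have h3 : x.1 = y.1 := by omega
      apply hm
      left
      refine ⟨h3, ?_⟩
      obtain ⟨i, u, v, hE, hx'⟩ := mem_labs.1 hx
      obtain ⟨j, u', v', hE', hy'⟩ := mem_labs.1 hy
      have hij : i = j := by
        rcases hx' with rfl | rfl | rfl <;> rcases hy' with rfl | rfl | rfl <;> exact h3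
      subst hij
      rw [hE] at hE'
      simp only [Option.some.injEq, Prod.mk.injEq] at hE'
      obtain ⟨rfl, rfl⟩ := hE'
      have hs : s i = 0 ∨ s i = 2 := by
        simp only [s]
        split_ifs <;> simp
      rcases hx' with rfl | rfl | rfl <;> rcases hy' with rfl | rfl | rfl <;>
        simp only [true_or, or_true] <;> first | exact absurd rfl hne | skip
      · simp only at h1 h2; omega
      · simp only at h1 h2; omega

theorem cover_of_colorable {E : List (ℕ × ℕ)} (hE : ∀ e ∈ E, e.1 ≠ e.2) {t : ℕ}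
    (h : (gr E).Colorable (t + E.length)) : ∃ C : Finset ℕ, Covers E C ∧ C.card ≤ t := by
  classical
  rw [colorable_gr] at h
  obtain ⟨c, hc1, hc2⟩ := h
  have hb : ∀ i < E.length, ((i, 1, 0) : Lab) ∈ labs E := by
    intro i hi
    rw [mem_labs]
    exact ⟨i, E[i].1, E[i].2, by rw [List.getElem?_eq_getElem hi], Or.inr (Or.inl rfl)⟩
  -- the colours of the middle edges
  let B : Finset ℕ := (Finset.range E.length).image (fun i => c (i, 1, 0))
  have hB : B.card = E.length := by
    rw [Finset.card_image_of_injOn, Finset.card_range]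
    intro i hi j hj hij
    by_contra hne
    rw [Finset.coe_range, Set.mem_Iio] at hi hj
    refine hc2 _ (hb i hi) _ (hb j hj) ?_ hij
    rw [ad_iff, meets_iff]
    refine ⟨fun h => hne (by simpa using h), ?_⟩
    simp [hne]
  let D : Finset ℕ := Finset.range (t + E.length) \ B
  have hD : D.card = t := by
    rw [Finset.card_sdiff_of_subset, Finset.card_range, hB]
    · omega
    · intro a ha
      obtain ⟨i, hi, rfl⟩ := Finset.mem_image.1 ha
      exact Finset.mem_range.2 (hc1 _ (hb i (Finset.mem_range.1 hi)))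
  let C : Finset ℕ := (((labs E).filter (fun x => decide (x.2.1 ≠ 1) && decide (c x ∉ B))).map
    (fun x => x.2.2)).toFinset
  have hC : ∀ w, w ∈ C ↔ ∃ x ∈ labs E, x.2.1 ≠ 1 ∧ c x ∉ B ∧ x.2.2 = w := by
    intro w
    simp only [C, List.mem_toFinset, List.mem_map, List.mem_filter, Bool.and_eq_true,
      decide_eq_true_eq]
    constructor
    · rintro ⟨x, ⟨h1, h2, h3⟩, h4⟩
      exact ⟨x, h1, h2, h3, h4⟩
    · rintro ⟨x, h1, h2, h3, h4⟩
      exact ⟨x, ⟨h1, h2, h3⟩, h4⟩
  refine ⟨C, ?_, ?_⟩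
  · rintro ⟨u, v⟩ he
    obtain ⟨i, hi, hie⟩ := List.getElem_of_mem he
    have hi' : E[i]? = some (u, v) := by rw [List.getElem?_eq_getElem hi, hie]
    have ha : ((i, 0, u) : Lab) ∈ labs E := mem_labs.2 ⟨i, u, v, hi', Or.inl rfl⟩
    have hcc : ((i, 2, v) : Lab) ∈ labs E := mem_labs.2 ⟨i, u, v, hi', Or.inr (Or.inr rfl)⟩
    have hne : c (i, 0, u) ≠ c (i, 2, v) := by
      refine hc2 _ ha _ hcc ?_
      rw [ad_iff, meets_iff]
      have := hE _ he
      simpa using this
    have hother : ∀ x ∈ labs E, x.2.1 ≠ 1 → x.1 = i → c x ≠ c (i, 1, 0) → c x ∉ B := by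
      intro x hx hx1 hxi hxc hxB
      obtain ⟨j, hj, hj'⟩ := Finset.mem_image.1 hxB
      rw [Finset.mem_range] at hj
      by_cases hij : j = i
      · subst hij
        exact hxc hj'.symm
      · refine hc2 _ hx _ (hb j hj) ?_ hj'.symm
        rw [ad_iff, meets_iff]
        refine ⟨fun h => hx1 (by rw [h]), ?_⟩
        rintro (⟨h, _⟩ | ⟨_, h, _⟩)
        · exact hij (by rw [← hxi, h])
        · exact h rfl
    by_cases h1 : c (i, 0, u) = c (i, 1, 0)
    · right
      rw [hC]
      exact ⟨_, hcc, by simp, hother _ hcc (by simp) rfl (fun h => hne (by rw [h1, h])), rfl⟩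
    · left
      rw [hC]
      exact ⟨_, ha, by simp, hother _ ha (by simp) rfl h1, rfl⟩
  · rw [← hD]
    choose! f hf1 hf2 hf3 hf4 using fun w (hw : w ∈ C) => (hC w).1 hw
    refine Finset.card_le_card_of_injOn (fun w => c (f w)) ?_ ?_
    · intro w hw
      simp only [D, Finset.coe_sdiff, Set.mem_sdiff, Finset.mem_coe, Finset.mem_range]
      exact ⟨hc1 _ (hf1 w hw), hf3 w hw⟩
    · intro w hw w' hw' h
      by_contra hne
      have hff : f w ≠ f w' := fun h => hne (by rw [← hf4 w hw, ← hf4 w' hw', h])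
      refine hc2 _ (hf1 w hw) _ (hf1 w' hw') ?_ h
      rw [ad_iff, meets_iff]
      refine ⟨hff, ?_⟩
      rintro (⟨_, h1 | h1⟩ | ⟨_, _, h1⟩)
      · exact hf2 w hw h1
      · exact hf2 w' hw' h1
      · exact hne (by rw [← hf4 w hw, ← hf4 w' hw', h1])

end Pool.Agent.W981.OHF
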