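import Pool.Agent.W981.OHF.Core
import Pool.Agent.H671R2.OrdNP
import Pool.Agent.H642R2.TMSim

/-!
# Colouring odd-hole-free graphs is NP-hard
-/

namespace Pool.Agent.W981.OHF

open Pool.Agent.NPC Pool.Agent.NPC.R671 Pool.Agent.NPC.H634R2 Pool.Agent.H671R2.Ord
  Pool.Agent.H622R2

/-- The non-edges of the clique graph of a formula. -/
def coE (φ : List Cl3) : List (ℕ × ℕ) :=
  ((gV φ) ×ˢ (gV φ)).filter (fun p => decide (p.1 < p.2) && !decide (p ∈ gE φ))

theorem mem_coE {φ : List Cl3} {p : ℕ × ℕ} :
    p ∈ coE φ ↔ p.1 < 3 * φ.length ∧ p.2 < 3 * φ.length ∧ p.1 < p.2 ∧ p ∉ gE φ := by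
  obtain ⟨u, v⟩ := p
  unfold coE
  rw [List.mem_filter, gV_eq]
  simp only [List.mem_product, List.mem_range, Bool.and_eq_true, decide_eq_true_eq,
    Bool.not_eq_true', decide_eq_false_iff_not]
  tauto

theorem coE_ne {φ : List Cl3} : ∀ e ∈ coE φ, e.1 ≠ e.2 := by
  intro e he
  have := (mem_coE.1 he).2.2.1
  omega

theorem sat_iff_colorable (φ : List Cl3) :
    SAT3 φ ↔ (gr (coE φ)).Colorable (2 * φ.length + (coE φ).length) := by
  classical
  rw [← hasClique_g]
  constructor
  · rintro ⟨K, hKV, hcard, hK⟩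
    refine colorable_of_cover (C := Finset.range (3 * φ.length) \ K) ?_ ?_
    · rintro ⟨u, v⟩ he
      obtain ⟨h1, h2, h3, h4⟩ := mem_coE.1 he
      simp only at h1 h2 h3 h4
      by_contra hcon
      push Not at hcon
      simp only [Finset.mem_sdiff, Finset.mem_range, not_and, not_not] at hcon
      have hu := hcon.1 h1
      have hv := hcon.2 h2
      rcases hK u hu v hv h3.ne with h | h
      · exact h4 h
      · have := gE_lt h
        omega
    · rw [Finset.card_sdiff_of_subset, Finset.card_range, hcard]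
      · omega
      · intro a ha
        have := hKV a ha
        rw [gV_eq, List.mem_range] at this
        exact Finset.mem_range.2 this
  · intro h
    obtain ⟨C, hC, ht⟩ := cover_of_colorable coE_ne h
    have h1 : φ.length ≤ (Finset.range (3 * φ.length) \ C).card := by
      have := Finset.le_card_sdiff C (Finset.range (3 * φ.length))
      rw [Finset.card_range] at this
      omega
    obtain ⟨K, hK1, hK2⟩ := Finset.exists_subset_card_eq h1
    have hmem : ∀ v ∈ K, v < 3 * φ.length ∧ v ∉ C := by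
      intro v hv
      have := hK1 hv
      rw [Finset.mem_sdiff, Finset.mem_range] at this
      exact this
    refine ⟨K, ?_, hK2, ?_⟩
    · intro v hv
      rw [gV_eq, List.mem_range]
      exact (hmem v hv).1
    · have key : ∀ u ∈ K, ∀ v ∈ K, u < v → (u, v) ∈ gE φ := by
        intro u hu v hv huv
        by_contra hcon
        have h2 : (u, v) ∈ coE φ := mem_coE.2 ⟨(hmem u hu).1, (hmem v hv).1, huv, hcon⟩
        rcases hC _ h2 with h3 | h3
        · exact (hmem u hu).2 h3
        · exact (hmem v hv).2 h3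
      intro u hu v hv huv
      rcases lt_or_gt_of_ne huv with h | h
      · exact Or.inl (key u hu v hv h)
      · exact Or.inr (key v hv u hu h)

/-! ### The reduction is computable in polynomial time -/

theorem meets_poly {α : Type} [TEnc α] {x y : α → Lab} (hx : Poly x) (hy : Poly y) :
    Poly (fun a => meets (x a) (y a)) := by
  unfold meets
  have h1 : Poly (fun a => decide ((x a).2.1 ≠ 1)) := by
    simp only [ne_eq, decide_not]
    fun_prop
  have h2 : Poly (fun a => decide ((y a).2.1 ≠ 1)) := by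
    simp only [ne_eq, decide_not]
    fun_prop
  fun_prop

theorem ad_poly {α : Type} [TEnc α] {x y : α → Lab} (hx : Poly x) (hy : Poly y) :
    Poly (fun a => ad (x a) (y a)) := by
  unfold ad
  have h1 : Poly (fun a => decide (x a ≠ y a)) := by
    simp only [ne_eq, decide_not]
    fun_prop
  have h2 := meets_poly hx hy
  fun_prop

theorem coE_poly : Poly coE := by
  unfold coE
  have h1 := gV_poly
  have h2 := gE_poly
  have h3 : Poly (fun φ : List Cl3 => (gV φ) ×ˢ (gV φ)) := poly_product h1 h1
  refine NPC.Poly.filter (p := fun φ (p : ℕ × ℕ) => decide (p.1 < p.2) && !decide (p ∈ gE φ)) h3 ?_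
  have h4 : Poly (fun x : List Cl3 × (ℕ × ℕ) => gE x.1) := h2.comp (NPC.Poly.fst NPC.Poly.id)
  fun_prop

theorem labs_poly {α : Type} [TEnc α] {E : α → List (ℕ × ℕ)} (hE : Poly E) :
    Poly (fun a => labs (E a)) := by
  unfold labs
  refine NPC.Poly.flatMap (F := fun _ (p : (ℕ × ℕ) × ℕ) =>
    [((p.2, 0, p.1.1) : Lab), (p.2, 1, 0), (p.2, 2, p.1.2)]) (NPC.Poly.zipIdx hE) ?_
  fun_prop

theorem matrix_gr (E : List (ℕ × ℕ)) :
    adjMatrix (gr E) = (labs E).map (fun u => (labs E).map (fun w => ad u w)) :=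
  adjMatrix_listGraph _ _ _ _

theorem matrix_poly {α : Type} [TEnc α] {E : α → List (ℕ × ℕ)} (hE : Poly E) :
    Poly (fun a => adjMatrix (gr (E a))) := by
  have h := labs_poly hE
  refine NPC.Poly.congr (f := fun a => (labs (E a)).map (fun u => (labs (E a)).map
    (fun w => ad u w))) ?_ (fun a => (matrix_gr (E a)).symm)
  refine NPC.Poly.map (F := fun a u => (labs (E a)).map (fun w => ad u w)) h ?_
  refine NPC.Poly.map (F := fun (x : α × Lab) w => ad x.2 w) (h.comp (NPC.Poly.fst NPC.Poly.id)) ?_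
  exact ad_poly (NPC.Poly.snd (NPC.Poly.fst NPC.Poly.id)) (NPC.Poly.snd NPC.Poly.id)

/-- The reduction. -/
noncomputable def red (φ : List Cl3) : List (List Bool) × ℕ :=
  (adjMatrix (gr (coE φ)), 2 * φ.length + (coE φ).length)

theorem red_poly : Poly red := by
  unfold red
  have h1 := coE_poly
  have h2 : Poly (fun φ : List Cl3 => adjMatrix (gr (coE φ))) := matrix_poly h1
  fun_prop

/-- **Hardness of the promise problem.** -/
theorem hard (L : Set (List Bool)) (hL : InNP L) :
    ∃ f : List Bool → List Bool, PolyTime f ∧ ∀ w, ∃ (n k : ℕ) (G : SimpleGraph (Fin n)),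
      f w = bits (adjMatrix G, k) ∧ OddHoleFree G ∧ (w ∈ L ↔ G.Colorable k) := by
  obtain ⟨g, hg, hgL⟩ := hardI_SAT3 L hL
  refine ⟨fun w => bits (red (g w)), PC.toPolyTime_bits red_poly g hg, fun w => ?_⟩
  refine ⟨_, 2 * (g w).length + (coE (g w)).length, gr (coE (g w)), rfl,
    oddHoleFree_gr coE_ne, ?_⟩
  rw [hgL w, sat_iff_colorable]

/-! ### Equivalence with `P = NP` -/

/-- The list `l` describes a proper colouring of the graph with matrix `M` with the colours
`0, …, k - 1`. -/
def chk (x : (List (List Bool) × ℕ) × List ℕ) : Bool :=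
  decide (x.2.length = x.1.1.length) && x.2.all (fun a => decide (a < x.1.2)) &&
  (List.range x.2.length).all (fun i => (List.range x.2.length).all (fun j =>
    !(me x.1.1 i j) || !decide (x.2.getD i 0 = x.2.getD j 0)))

theorem me_poly {α : Type} [TEnc α] {M : α → List (List Bool)} {i j : α → ℕ} (hM : Poly M)
    (hi : Poly i) (hj : Poly j) : Poly (fun a => me (M a) (i a) (j a)) := by
  unfold me
  fun_prop

theorem chk_poly : Poly chk := by
  unfold chk
  have h1 : Poly (fun p : (((List (List Bool) × ℕ) × List ℕ) × ℕ) × ℕ =>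
      me p.1.1.1.1 p.1.2 p.2) := me_poly (by fun_prop) (by fun_prop) (by fun_prop)
  have h2 : Poly (fun x : (List (List Bool) × ℕ) × List ℕ => List.range x.2.length) :=
    UPoly.range (UPoly.length (NPC.Poly.snd NPC.Poly.id))
  have h3 : Poly (fun x : ((List (List Bool) × ℕ) × List ℕ) × ℕ => List.range x.1.2.length) :=
    h2.comp (NPC.Poly.fst NPC.Poly.id)
  fun_prop

theorem chk_iff {n : ℕ} (G : SimpleGraph (Fin n)) (k : ℕ) (l : List ℕ) :
    chk ((adjMatrix G, k), l) = true ↔
      ∃ C : G.Coloring (Fin k), List.ofFn (fun v => (C v : ℕ)) = l := by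
  simp only [chk, Bool.and_eq_true, decide_eq_true_eq, length_adjMatrix, List.all_eq_true,
    List.mem_range, Bool.or_eq_true, Bool.not_eq_true', decide_eq_false_iff_not]
  constructor
  · rintro ⟨⟨h1, h2⟩, h3⟩
    subst h1
    refine ⟨SimpleGraph.Coloring.mk (fun i => ⟨l[i], h2 _ (List.getElem_mem _)⟩) ?_, ?_⟩
    · intro i j hij h
      rw [Fin.mk.injEq] at h
      have h4 := (me_adj G i j).2 hij
      rcases h3 i i.isLt j j.isLt with h5 | h5
      · rw [h5] at h4; exact absurd h4 (by simp)
      · apply h5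
        rw [List.getD_eq_getElem _ _ i.isLt, List.getD_eq_getElem _ _ j.isLt]
        exact h
    · apply List.ext_getElem
      · simp
      · intro i hi hi'
        rw [List.getElem_ofFn]
        rfl
  · rintro ⟨C, rfl⟩
    refine ⟨⟨by simp, ?_⟩, ?_⟩
    · intro a ha
      rw [List.mem_ofFn] at ha
      obtain ⟨i, rfl⟩ := ha
      exact Fin.isLt _
    · intro i hi j hj
      rw [List.length_ofFn] at hi hj
      by_cases hij : G.Adj ⟨i, hi⟩ ⟨j, hj⟩
      · right
        rw [List.getD_eq_getElem _ _ (by simpa using hi),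
          List.getD_eq_getElem _ _ (by simpa using hj), List.getElem_ofFn, List.getElem_ofFn]
        intro h
        exact C.valid hij (Fin.ext h)
      · left
        rw [← me_adj G] at hij
        simpa using hij

/-- There is a polynomial-time algorithm which, given an odd-hole-free graph, outputs a proper
colouring with the minimum number of colours. -/
def OptimalColouring : Prop :=
  ∃ A : List Bool → List Bool, PolyTime A ∧ ∀ (n : ℕ) (G : SimpleGraph (Fin n)), OddHoleFree G →
    ∃ (k : ℕ) (C : G.Coloring (Fin k)), (k : ℕ∞) = G.chromaticNumber ∧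
      A (bits (adjMatrix G)) = bits (List.ofFn fun v => (C v : ℕ))

theorem proj_polyTime {α β : Type} [TEnc α] [TDec α] [TEnc β] {g : α → β} (hg : Poly g) :
    PolyTime (fun x => ((unbits α x).map (fun a => bits (g a))).getD []) :=
  polyTime_of_poly_list (NPC.Poly.optGetD (NPC.Poly.optMap_fp (h := fun _ a => bits (g a))
    poly_unbits ((poly_bits (α := β)).comp (hg.comp (NPC.Poly.snd NPC.Poly.id))))
    (NPC.Poly.const []))

theorem collapse_of_optimal (h : OptimalColouring) : PEqNP := by
  obtain ⟨A, hA, hA'⟩ := h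
  intro L hL
  obtain ⟨f, hf, hfL⟩ := hard L hL
  have hB : PolyTime (fun x => A (((unbits (List (List Bool) × ℕ) x).map
      (fun a => bits a.1)).getD [])) :=
    Pool.Agent.H642R2.TMSim.polyTime_comp hA (proj_polyTime (NPC.Poly.fst NPC.Poly.id))
  refine inP_of_search chk_poly hB hf fun w => ?_
  obtain ⟨n, k, G, h1, h2, h3⟩ := hfL w
  refine ⟨(adjMatrix G, k), h1, ?_, ?_⟩
  · rw [h3]
    simp only [chk_iff]
    constructor
    · rintro ⟨C⟩
      exact ⟨_, C, rfl⟩
    · rintro ⟨_, C, _⟩
      exact ⟨C⟩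
  · rintro ⟨l, hl⟩
    rw [chk_iff] at hl
    obtain ⟨C, _⟩ := hl
    obtain ⟨k', C', h4, h5⟩ := hA' n G h2
    have hk : k' ≤ k := by
      have : G.chromaticNumber ≤ k := by
        have h6 := C.colorable.chromaticNumber_le
        rwa [Fintype.card_fin] at h6
      rw [← h4] at this
      exact_mod_cast this
    refine ⟨List.ofFn fun v => (C' v : ℕ), ?_, ?_⟩
    · rw [chk_iff]
      exact ⟨(SimpleGraph.Embedding.completeGraph (Fin.castLEEmb hk)).toHom.comp C', rfl⟩
    · rw [h1]
      simp only [unbits_bits, Option.map_some, Option.getD_some]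
      exact h5

theorem sz_chk {M : List (List Bool)} {k : ℕ} {l : List ℕ} (hk : k ≤ M.length)
    (h : chk ((M, k), l) = true) :
    sz (k, l) ≤ (4 * Polynomial.X ^ 2 + 10 * Polynomial.X + 10 : Polynomial ℕ).eval (sz M) := by
  simp only [chk, Bool.and_eq_true, decide_eq_true_eq, List.all_eq_true] at h
  obtain ⟨⟨h1, h2⟩, _⟩ := h
  have hM := length_lt_sz M
  have key : ∀ m ≤ M.length, sz m ≤ 4 * M.length + 1 := by
    intro m hm
    have h3 := sz_nat_le m
    have h4 : m.size ≤ m := by
      rw [Nat.size_le]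
      exact Nat.lt_two_pow_self
    omega
  have h3 := sz_le_length_mul l (4 * M.length + 1) (fun a ha => key a (by
    have := h2 a ha; omega))
  have h4 := key k hk
  rw [sz_pair]
  have h5 : l.length * (4 * M.length + 1 + 1) ≤ sz M * (4 * sz M + 2) :=
    Nat.mul_le_mul (by omega) (by omega)
  have h6 : (4 * Polynomial.X ^ 2 + 10 * Polynomial.X + 10 : Polynomial ℕ).eval (sz M) =
      4 * sz M ^ 2 + 10 * sz M + 10 := by simp
  rw [h6]
  nlinarith

theorem optimal_of_collapse (h : PEqNP) : OptimalColouring := by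
  -- colourability
  let P : List (List Bool) × ℕ → Prop := fun a => a.2 ≤ a.1.length ∧ ∃ l, chk (a, l) = true
  have hP : InNPP P := by
    refine inNPP_of (R := fun y : (List (List Bool) × ℕ) × List ℕ =>
      decide (y.1.2 ≤ y.1.1.length) && chk y) ?_
      (4 * Polynomial.X ^ 2 + 10 * Polynomial.X + 10) ?_
    · have := chk_poly
      have h2 : Poly (fun y : (List (List Bool) × ℕ) × List ℕ => chk y) := this
      fun_prop
    · rintro ⟨M, k⟩
      simp only [P, Bool.and_eq_true, decide_eq_true_eq]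
      constructor
      · rintro ⟨hk, l, hl⟩
        refine ⟨l, ?_, hk, hl⟩
        have h1 := sz_chk hk hl
        rw [sz_pair] at h1
        have h2 : (4 * Polynomial.X ^ 2 + 10 * Polynomial.X + 10 : Polynomial ℕ).eval (sz M) ≤
            (4 * Polynomial.X ^ 2 + 10 * Polynomial.X + 10 : Polynomial ℕ).eval (sz (M, k)) :=
          eval_mono _ (by rw [sz_pair]; omega)
        omega
      · rintro ⟨l, _, hk, hl⟩
        exact ⟨hk, l, hl⟩
  obtain ⟨V, hV, hV'⟩ := InPP.exists_test (h _ hP : InPP P)
  -- the relation: a proper colouring with `k` colours, and there is none with `k - 1` colours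
  let R : List (List Bool) × (ℕ × List ℕ) → Bool := fun x =>
    decide (x.2.1 ≤ x.1.length) && chk ((x.1, x.2.1), x.2.2) &&
      (decide (x.2.1 = 0) || !decide (V (bits (x.1, x.2.1 - 1)) = [true]))
  have hR : Poly R := by
    have h1 : Poly (fun x : List (List Bool) × (ℕ × List ℕ) => chk ((x.1, x.2.1), x.2.2)) :=
      chk_poly.comp (by fun_prop)
    have h2 : Poly (fun x : List (List Bool) × (ℕ × List ℕ) =>
        V (bits (x.1, x.2.1 - 1))) :=
      (poly_of_polyTime hV).comp ((poly_bits (α := List (List Bool) × ℕ)).comp (by fun_prop))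
    have h3 : Poly (fun x : List (List Bool) × (ℕ × List ℕ) =>
        decide (V (bits (x.1, x.2.1 - 1)) = [true])) := NPC.Poly.dec_eq h2 (NPC.Poly.const _)
    have h4 : Poly (fun x : List (List Bool) × (ℕ × List ℕ) => decide (x.2.1 ≤ x.1.length)) := by
      fun_prop
    have h5 : Poly (fun x : List (List Bool) × (ℕ × List ℕ) => decide (x.2.1 = 0)) := by
      fun_prop
    exact NPC.Poly.and (NPC.Poly.and h4 h1) (NPC.Poly.or h5 (NPC.Poly.not h3))
  have hRiff : ∀ {n : ℕ} (G : SimpleGraph (Fin n)) (k : ℕ) (l : List ℕ),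
      R (adjMatrix G, (k, l)) = true ↔ (k ≤ n ∧ (∃ C : G.Coloring (Fin k),
        List.ofFn (fun v => (C v : ℕ)) = l) ∧ (k = 0 ∨ ¬ G.Colorable (k - 1))) := by
    intro n G k l
    simp only [R, Bool.and_eq_true, decide_eq_true_eq, Bool.or_eq_true, length_adjMatrix, chk_iff,
      Bool.not_eq_true', decide_eq_false_iff_not, and_assoc]
    refine and_congr_right fun hk => and_congr_right fun _ => or_congr_right (not_congr ?_)
    rw [← hV']
    simp only [P, length_adjMatrix, chk_iff]
    constructor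
    · rintro ⟨_, _, C, _⟩
      exact ⟨C⟩
    · rintro ⟨C⟩
      exact ⟨by omega, _, C, rfl⟩
  obtain ⟨A, hA, hA'⟩ := search_of_collapse hR (4 * Polynomial.X ^ 2 + 10 * Polynomial.X + 10)
    (fun M kl hkl => by
      obtain ⟨k, l⟩ := kl
      simp only [R, Bool.and_eq_true, decide_eq_true_eq] at hkl
      exact sz_chk hkl.1.1 hkl.1.2) h
  refine ⟨fun x => ((unbits (ℕ × List ℕ) (A x)).map (fun a => bits a.2)).getD [],
    Pool.Agent.H642R2.TMSim.polyTime_comp (proj_polyTime (NPC.Poly.snd NPC.Poly.id)) hA,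
    fun n G _ => ?_⟩
  have hcol : G.Colorable n := by
    have := G.colorable_of_fintype
    rwa [Fintype.card_fin] at this
  obtain ⟨k, hk⟩ : ∃ k : ℕ, (k : ℕ∞) = G.chromaticNumber := by
    have h1 : G.chromaticNumber ≠ ⊤ := SimpleGraph.chromaticNumber_ne_top_iff_exists.2 ⟨n, hcol⟩
    exact ⟨G.chromaticNumber.toNat, ENat.natCast_toNat h1⟩
  have hkc : G.Colorable k := SimpleGraph.chromaticNumber_le_iff_colorable.1 (by rw [← hk])
  have hkn : k ≤ n := by
    have h1 := hcol.chromaticNumber_le
    rw [← hk] at h1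
    exact_mod_cast h1
  have hmin : k = 0 ∨ ¬ G.Colorable (k - 1) := by
    by_cases h0 : k = 0
    · exact Or.inl h0
    · right
      intro hc
      have h1 := hc.chromaticNumber_le
      rw [← hk] at h1
      have h2 : k ≤ k - 1 := by exact_mod_cast h1
      omega
  obtain ⟨C⟩ := hkc
  obtain ⟨⟨k', l⟩, h1, h2⟩ := hA' (adjMatrix G) ⟨(k, _), (hRiff G k _).2 ⟨hkn, ⟨C, rfl⟩, hmin⟩⟩
  obtain ⟨h3, ⟨C', h4⟩, h5⟩ := (hRiff G k' l).1 h1
  have hkk : k' = k := by
    have h6 : k ≤ k' := by
      have h7 := SimpleGraph.Colorable.chromaticNumber_le (n := k') ⟨C'⟩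
      rw [← hk] at h7
      exact_mod_cast h7
    by_contra hne
    rcases h5 with h5 | h5
    · omega
    · apply h5
      exact SimpleGraph.Colorable.mono (by omega) ⟨C⟩
  subst hkk
  refine ⟨k', C', hk, ?_⟩
  simp only [h2, unbits_bits, Option.map_some, Option.getD_some, h4]

theorem optimalColouring_iff : OptimalColouring ↔ PEqNP :=
  ⟨collapse_of_optimal, optimal_of_collapse⟩

end Pool.Agent.W981.OHF
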